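import Pool.Agent.H61.MT2

set_option autoImplicit false
set_option linter.all false

/-!
# Several abundant elements: a local characterization, and the number of `k`-sets which force them

We call an element abundant if it lies in at least half of the members. Let `K` be a family of subsets
of a finite set `N`; we ask whether every finite union-closed family `F ⊇ K`, whatever its other
members are, has at least `t + 1` abundant elements in `N` (`t = 1`: two abundant elements, as in the
question).

* This is the case if and only if for each `t`-subset `X` of `N` the members of `K` which avoid `X`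
  force one abundant element in `N \ X`.
* Let `num k n t` be the least number of `k`-element members inside an `n`-set `N` which forces at least
  `t` abundant elements in `N`. Then `num k n (t+1) = C(n,k) - C(n-t,k) + num k (n-t) 1`.
* Hence `num 3 n (t+1) = C(n,3) - C(n-t,3) + ⌊(n-t)/2⌋ + 1` for `t + 4 ≤ n`; in particular two abundant
  elements are forced by `C(n-1,2) + ⌊(n-1)/2⌋ + 1` triples, and not by fewer. For `k ≥ 4` the last term
  is `C(n-t,k-2) / 2 + O((n-t)^(k-3))`.
* If the blocks of a Steiner system `S(2,k,n)` are members of `F`, then at least `(n + 1 - 2^(k-1)) / k`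
  of its points are abundant.

Proof of the characterization. If a union-closed family `F₀` contains the members of `K` which avoid
`X`, and has no abundant element in `N \ X`, we may assume that its members avoid `X` (rename the
elements outside `N \ X`). Add all the sets `C ∪ T` with `C ⊆ N`, `C` meeting `X`, and `T = ∅` or `T` the
part outside `N` of a member of `F₀`. The result is union-closed and contains `K`, and every element of
`N \ X` lies in exactly half of the sets which have been added.
-/

namespace Pool.Agent.Results.MP_caa27d_co.SeveralAbundantLocal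

open Finset

/-- The finite family `F` of finite sets is union-closed. -/
def UnionClosed (F : Finset (Finset ℕ)) : Prop := ∀ A ∈ F, ∀ B ∈ F, A ∪ B ∈ F

/-- The element `x` lies in at least half of the members of `F`. -/
def Abundant (F : Finset (Finset ℕ)) (x : ℕ) : Prop :=
  F.card ≤ 2 * (F.filter (fun A => x ∈ A)).card

instance (F : Finset (Finset ℕ)) : DecidablePred (Abundant F) := fun _ => Nat.decLe _ _

/-- Every finite union-closed family containing `K` has at least `t` abundant elements in `N`. -/
def Forces (N : Finset ℕ) (K : Finset (Finset ℕ)) (t : ℕ) : Prop :=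
  ∀ F : Finset (Finset ℕ), UnionClosed F → K ⊆ F → t ≤ (N.filter (Abundant F)).card

/-- The number of members of `F` that are `k`-element subsets of `N`. -/
def kSets (F : Finset (Finset ℕ)) (N : Finset ℕ) (k : ℕ) : ℕ :=
  (F.filter (fun A => A ⊆ N ∧ A.card = k)).card

/-- The least `m` such that every finite union-closed family with at least `m` members among the
`k`-subsets of an `n`-element set `N` has at least `t` abundant elements in `N`. -/
noncomputable def num (k n t : ℕ) : ℕ :=
  sInf {m : ℕ | ∀ N : Finset ℕ, N.card = n → ∀ F : Finset (Finset ℕ), UnionClosed F →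
    m ≤ kSets F N k → t ≤ (N.filter (Abundant F)).card}

theorem result :
    -- (1) the local characterization
    (∀ (N : Finset ℕ) (K : Finset (Finset ℕ)) (t : ℕ), (∀ A ∈ K, A ⊆ N) → t ≤ N.card →
      (Forces N K (t + 1) ↔ ∀ X ⊆ N, X.card = t →
        Forces (N \ X) (K.filter (fun A => Disjoint A X)) 1)) ∧
    -- (2) the reduction of the numbers to one abundant element
    (∀ k n t : ℕ, t ≤ n →
      num k n (t + 1) = (n.choose k - (n - t).choose k) + num k (n - t) 1) ∧
    -- (3) triples
    (∀ n t : ℕ, t + 4 ≤ n →
      num 3 n (t + 1) = (n.choose 3 - (n - t).choose 3) + ((n - t) / 2 + 1)) ∧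
    (∀ n : ℕ, 5 ≤ n → num 3 n 2 = (n - 1).choose 2 + (n - 1) / 2 + 1) ∧
    -- (4) `k`-sets
    (∀ k : ℕ, 3 ≤ k → ∃ C : ℕ, ∀ n t : ℕ, t < n →
      |2 * (num k n (t + 1) : ℤ) - 2 * ((n.choose k : ℤ) - ((n - t).choose k : ℤ)) -
        ((n - t).choose (k - 2) : ℤ)| ≤ C * ((n - t : ℕ) : ℤ) ^ (k - 3)) ∧
    -- (5) Steiner systems
    (∀ (N : Finset ℕ) (F K : Finset (Finset ℕ)) (k : ℕ), 2 ≤ k → 2 ≤ N.card → UnionClosed F → K ⊆ F →
      (∀ A ∈ K, A ⊆ N ∧ A.card = k) →
      (∀ x ∈ N, ∀ y ∈ N, x ≠ y → (K.filter (fun A => x ∈ A ∧ y ∈ A)).card = 1) →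
      N.card + 1 ≤ k * (N.filter (Abundant F)).card + 2 ^ (k - 1)) := by
  have hnum : ∀ k n t : ℕ, num k n t = sInf (Pool.Agent.H61.MT.adm k n t) := fun _ _ _ => rfl
  have h2 : ∀ k n t : ℕ, t ≤ n →
      num k n (t + 1) = (n.choose k - (n - t).choose k) + num k (n - t) 1 :=
    fun k n t ht => Pool.Agent.H61.MT.num_many ht
  have h3 : ∀ n t : ℕ, t + 4 ≤ n →
      num 3 n (t + 1) = (n.choose 3 - (n - t).choose 3) + ((n - t) / 2 + 1) := by
    intro n t ht
    rw [h2 3 n t (by omega), hnum 3 (n - t) 1, Pool.Agent.H61.MT.num_three (by omega)]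
  refine ⟨?_, h2, h3, ?_, ?_, ?_⟩
  · intro N K t hK ht
    have h := Pool.Agent.H61.MT.many_iff hK ht
    constructor
    · intro hf X hX hXt F hF hKF
      obtain ⟨x, hx, hab⟩ := h.1 hf X hX hXt F hF hKF
      exact card_pos.2 ⟨x, mem_filter.2 ⟨hx, hab⟩⟩
    · intro hf
      refine h.2 fun X hX hXt F hF hKF => ?_
      obtain ⟨x, hx⟩ := card_pos.1 (hf X hX hXt F hF hKF)
      rw [mem_filter] at hx
      exact ⟨x, hx.1, hx.2⟩
  · intro n hn
    obtain ⟨m, rfl⟩ : ∃ m, n = m + 1 := ⟨n - 1, by omega⟩
    have h4 : num 3 (m + 1) 2 = ((m + 1).choose 3 - m.choose 3) + (m / 2 + 1) :=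
      h3 (m + 1) 1 (by omega)
    have h5 : (m + 1).choose 3 = m.choose 2 + m.choose 3 := Nat.choose_succ_succ m 2
    have h6 : num 3 (m + 1) 2 = m.choose 2 + m / 2 + 1 := by
      rw [h4, h5, Nat.add_sub_cancel]
      rfl
    exact h6
  · intro k hk
    obtain ⟨C, hC⟩ := Pool.Agent.H61.MT.num_one hk
    refine ⟨C, fun n t ht => ?_⟩
    have h4 := hC (n - t) (by omega)
    have h5 := h2 k n t ht.le
    have h6 : (n - t).choose k ≤ n.choose k := Nat.choose_le_choose k (Nat.sub_le _ _)
    rw [h5, hnum k (n - t) 1]
    push_cast [Nat.cast_sub h6]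
    refine le_trans (le_of_eq ?_) h4
    congr 1
    ring
  · intro N F K k hk hN hF hKF hK hcod
    exact Pool.Agent.H61.MT.steiner_many hk hN hF hKF hK hcod

end Pool.Agent.Results.MP_caa27d_co.SeveralAbundantLocal
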